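import Mathlib
import Pool.Agent.Lib.MP_a6b860_an.Close

set_option autoImplicit false

open MeasureTheory

namespace Pool.Agent.Results.MP_a6b860_an.TwoModuli

/-- Lebesgue measure on `ℝ^d`. -/
noncomputable def leb (d : ℕ) : Measure (EuclideanSpace ℝ (Fin d)) := volume

/-- The Hilbert space `L²(ℝ^d)` (complex valued functions, Lebesgue measure). -/
abbrev L2 (d : ℕ) : Type := Lp ℂ 2 (leb d)

/-- The multiple `c f`. -/
noncomputable def scale {d : ℕ} (c : ℂ) (f : L2 d) : L2 d := c • f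

/-- The function `|f|`. -/
noncomputable def modulus {d : ℕ} (f : L2 d) (x : EuclideanSpace ℝ (Fin d)) : ℝ := ‖f x‖

/-- The additive maps of `L²(ℝ^d)`. -/
def Additive {d : ℕ} (U : L2 d → L2 d) : Prop := ∀ f g : L2 d, U (f + g) = U f + U g

/-- The complex homogeneous maps of `L²(ℝ^d)`. -/
def Homogeneous {d : ℕ} (U : L2 d → L2 d) : Prop :=
  ∀ (c : ℂ) (f : L2 d), U (scale c f) = scale c (U f)

/-- The norm preserving maps of `L²(ℝ^d)`. -/
def NormPreserving {d : ℕ} (U : L2 d → L2 d) : Prop := ∀ f : L2 d, ‖U f‖ = ‖f‖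

/-- The unitary operators of `L²(ℝ^d)`: the surjective linear isometries. -/
def IsUnitary {d : ℕ} (U : L2 d → L2 d) : Prop :=
  Additive U ∧ Homogeneous U ∧ NormPreserving U ∧ Function.Surjective U

/-- `|f| = |g|` almost everywhere. -/
def SameModulus {d : ℕ} (f g : L2 d) : Prop := ∀ᵐ x ∂(leb d), modulus f x = modulus g x

/-- `‖U - V‖ ≤ δ` -/
def Close {d : ℕ} (U V : L2 d → L2 d) (δ : ℝ) : Prop := ∀ f : L2 d, ‖U f - V f‖ ≤ δ * ‖f‖

/-- `f = c g` with `|c| = 1`. -/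
def SameUpToPhase {d : ℕ} (f g : L2 d) : Prop := ∃ c : ℂ, ‖c‖ = 1 ∧ f = scale c g

/-- The moduli of `V f` and `U f` determine `f` up to a global phase. -/
def Determine {d : ℕ} (V U : L2 d → L2 d) : Prop :=
  ∀ f g : L2 d, SameModulus (V f) (V g) → SameModulus (U f) (U g) → SameUpToPhase f g

lemma exists_equiv {d : ℕ} {V : L2 d → L2 d} (h : IsUnitary V) :
    ∃ V' : L2 d ≃ₗᵢ[ℂ] L2 d, ∀ f, V' f = V f := by
  obtain ⟨h1, h2, h3, h4⟩ := h
  let W : L2 d →ₗᵢ[ℂ] L2 d :=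
    { toFun := V
      map_add' := h1
      map_smul' := h2
      norm_map' := h3 }
  exact ⟨LinearIsometryEquiv.ofSurjective W h4, fun f => rfl⟩

lemma isUnitary_coe {d : ℕ} (U : L2 d ≃ₗᵢ[ℂ] L2 d) : IsUnitary (fun f => U f) :=
  ⟨fun f g => map_add U f g, fun c f => map_smul U c f, fun f => U.norm_map f, U.surjective⟩

lemma identity_case (d : ℕ) (hd : 1 ≤ d) {δ : ℝ} (hδ : 0 < δ) :
    ∃ U : L2 d ≃ₗᵢ[ℂ] L2 d, (∀ f, ‖U f - f‖ ≤ δ * ‖f‖) ∧
      ∀ f g : L2 d, SameModulus f g → SameModulus (U f) (U g) → SameUpToPhase f g :=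
  Pool.Agent.MP_a6b860_an.two_moduli_close (d := d) ⟨0, hd⟩ hδ

/-- **Two moduli suffice**: for every `d ≥ 1`, every unitary operator `V` of `L²(ℝ^d)` and every
`δ > 0` there is a unitary operator `U` with `‖U - V‖ ≤ δ` such that the moduli of `V f` and `U f`
determine `f` up to a global phase. -/
theorem result : ∀ d : ℕ, 1 ≤ d → ∀ V : L2 d → L2 d, IsUnitary V → ∀ δ : ℝ, 0 < δ →
    ∃ U : L2 d → L2 d, IsUnitary U ∧ Close U V δ ∧ Determine V U := by
  intro d hd V hV δ hδ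
  obtain ⟨V', hV'⟩ := exists_equiv hV
  obtain ⟨U₀, hc, hU⟩ := identity_case d hd hδ
  refine ⟨fun f => (V'.trans U₀) f, isUnitary_coe _, fun f => ?_, fun f g h1 h2 => ?_⟩
  · have h := hc (V' f)
    rw [V'.norm_map, hV'] at h
    have e : (V'.trans U₀) f = U₀ (V f) := by rw [← hV']; rfl
    change ‖(V'.trans U₀) f - V f‖ ≤ δ * ‖f‖
    rw [e]
    exact h
  · rw [← hV' f, ← hV' g] at h1
    obtain ⟨c, hc1, hc2⟩ := hU (V' f) (V' g) h1 h2
    refine ⟨c, hc1, V'.injective ?_⟩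
    rw [hc2]
    exact (map_smul V' c g).symm

end Pool.Agent.Results.MP_a6b860_an.TwoModuli
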